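import Pool.Agent.Y262.QE.Stm

/-!
# Project QE: integration in charts (adapted from `Pool.Agent.Y365.FA.Int`)
-/

set_option autoImplicit false
set_option linter.unusedSectionVars false

open Set Filter Topology MeasureTheory
open scoped Real ContDiff

noncomputable section

namespace Pool.Agent.Y960.QE

open Pool.Agent.Y262.QE

variable {M : Type} [MetricSpace M] [MeasurableSpace M] [BorelSpace M] {μ : Measure M}
  {D : Data M}

theorem pre_eq (S : D.IsSurf μ) (i : Fin D.N) {s : Set M} (hs : s ⊆ D.U i) (B : Set M) :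
    (D.ψ i) ⁻¹' B ∩ D.φ i '' s = D.φ i '' (B ∩ s) := by
  ext z
  constructor
  · rintro ⟨h1, x, hx, rfl⟩
    refine ⟨x, ⟨?_, hx⟩, rfl⟩
    rw [mem_preimage, S.left i x (hs hx)] at h1
    exact h1
  · rintro ⟨x, ⟨h1, hx⟩, rfl⟩
    refine ⟨?_, x, hx, rfl⟩
    rw [mem_preimage, S.left i x (hs hx)]
    exact h1

theorem meas_im (S : D.IsSurf μ) (i : Fin D.N) {s : Set M} (hs : s ⊆ D.U i)
    (hm : MeasurableSet s) : MeasurableSet (D.φ i '' s) := by
  have h0 : D.φ i '' s = D.T i ∩ D.ψ i ⁻¹' s := by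
    have h := pre_eq S i (subset_refl (D.U i)) s
    rw [inter_eq_self_of_subset_left hs] at h
    rw [← h, inter_comm]
    rfl
  have h1 : D.T i ∩ D.ψ i ⁻¹' s = Subtype.val '' ((D.T i).domRestrict (D.ψ i) ⁻¹' s) := by
    ext x
    constructor
    · rintro ⟨h, h'⟩
      exact ⟨⟨x, h⟩, h', rfl⟩
    · rintro ⟨⟨y, hy⟩, h', rfl⟩
      exact ⟨hy, h'⟩
  rw [h0, h1]
  refine (S.openT i).measurableSet.subtype_image ?_
  exact (continuousOn_iff_continuous_domRestrict.1 (S.contψ i)).measurable hm

theorem contDet (S : D.IsSurf μ) (i : Fin D.N) :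
    ContinuousOn (fun z => |(D.A i z).det|) (D.T i) :=
  (ContinuousLinearMap.continuous_det.comp_continuousOn (S.contA i)).abs

theorem im_sub {i : Fin D.N} {s : Set M} (hs : s ⊆ D.U i) : D.φ i '' s ⊆ D.T i :=
  image_mono hs

theorem aemψ (S : D.IsSurf μ) (i : Fin D.N) {s : Set M} (hs : s ⊆ D.U i)
    (hm : MeasurableSet s) : AEMeasurable (D.ψ i) (volume.restrict (D.φ i '' s)) :=
  ((S.contψ i).mono (im_sub hs)).aemeasurable (meas_im S i hs hm)

theorem aemDet (S : D.IsSurf μ) (i : Fin D.N) {s : Set M} (hs : s ⊆ D.U i)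
    (hm : MeasurableSet s) :
    AEMeasurable (fun z => ENNReal.ofReal |(D.A i z).det|) (volume.restrict (D.φ i '' s)) :=
  (((contDet S i).mono (im_sub hs)).aemeasurable (meas_im S i hs hm)).ennreal_ofReal

/-- the area measure in the chart -/
def nu (D : Data M) (i : Fin D.N) (s : Set M) : Measure ℂ :=
  (volume.restrict (D.φ i '' s)).withDensity (fun z => ENNReal.ofReal |(D.A i z).det|)

theorem aemψ' (S : D.IsSurf μ) (i : Fin D.N) {s : Set M} (hs : s ⊆ D.U i)
    (hm : MeasurableSet s) : AEMeasurable (D.ψ i) (nu D i s) :=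
  (aemψ S i hs hm).mono_ac (withDensity_absolutelyContinuous _ _)

theorem map_nu (S : D.IsSurf μ) (i : Fin D.N) {s : Set M} (hs : s ⊆ D.U i)
    (hm : MeasurableSet s) : Measure.map (D.ψ i) (nu D i s) = μ.restrict s := by
  ext B hB
  rw [Measure.map_apply_of_aemeasurable (aemψ' S i hs hm) hB, Measure.restrict_apply hB,
    S.area i (B ∩ s) (inter_subset_right.trans hs) (hB.inter hm),
    nu, withDensity_apply', Measure.restrict_restrict' (meas_im S i hs hm), pre_eq S i hs]

theorem int_chart : StInt := by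
  intro M _ _ _ _ μ D S i
  have hU : MeasurableSet (D.U i) := (S.openU i).measurableSet
  refine ⟨fun g hg => ?_, fun s hs hsub g hg => ?_⟩
  · have h1 : D.φ i '' D.U i = D.T i := rfl
    rw [← map_nu S i subset_rfl hU, lintegral_map' hg.aemeasurable (aemψ' S i subset_rfl hU), nu]
    have h2 := lintegral_withDensity_eq_lintegral_mul₀ (aemDet S i subset_rfl hU)
      (hg.comp_aemeasurable (aemψ S i subset_rfl hU))
    have h3 : ∫⁻ a, g (D.ψ i a) ∂(volume.restrict (D.φ i '' D.U i)).withDensity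
        (fun z => ENNReal.ofReal |(D.A i z).det|) =
        ∫⁻ a, (g ∘ D.ψ i) a ∂(volume.restrict (D.φ i '' D.U i)).withDensity
        (fun z => ENNReal.ofReal |(D.A i z).det|) := rfl
    rw [h3]
    refine h2.trans ?_
    rw [h1]
    refine lintegral_congr fun z => ?_
    rw [Pi.mul_apply, mul_comm, Function.comp_apply]
  · have hk2 : AEStronglyMeasurable g (Measure.map (D.ψ i) (nu D i s)) := by
      rw [map_nu S i hsub hs]
      exact hg.restrict
    rw [← map_nu S i hsub hs, integral_map (aemψ' S i hsub hs) hk2, nu,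
      integral_withDensity_eq_integral_toReal_smul₀ (aemDet S i hsub hs)
        (Eventually.of_forall fun z => ENNReal.ofReal_lt_top)]
    refine integral_congr_ae (Eventually.of_forall fun z => ?_)
    simp only [smul_eq_mul]
    rw [ENNReal.toReal_ofReal (abs_nonneg _), mul_comm]

end Pool.Agent.Y960.QE
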